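import Pool.Agent.H98.SD.Targets
import Pool.Agent.H7.HD.All

/-!
# MP_e37c09_lc, rows CDX and CDC: good codes
-/

open Ordinal Cardinal Order Set
open scoped ZFSet

universe u

namespace Pool.Agent.H99.SD

open _root_.HD _root_.HD.SD
open _root_.HD.NF (w0)

/-- A good code for the bounded subsets and a sequence of sets of ordinals. -/
theorem core (hCOD : T_COD.{u}) (hCDB : T_CDB.{u}) {en : Ordinal.{u} → ZFSet.{u}}
    {t : Ordinal.{u} → Ordinal.{u} → Ordinal.{u}} {L : Cardinal.{u}} (h : Stg en t L)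
    (y : Ordinal.{u} → Set Ordinal.{u}) :
    ∃ x, Cdd t L x ∧ ∀ i < L.ord, t 1 i < L.ord ∧
      ∀ a < L.ord, (a ∈ dec t x (t 1 i) ↔ a ∈ y i) := by
  obtain ⟨z, hz⟩ := hCDB L h.unc h.lim
  have hinj := h.ht.inj
  have hlt := h.ht.lt L h.unc.le
  have h1 : (1 : Ordinal.{u}) < L.ord := by
    have : ω ≤ L.ord := by
      rw [← Cardinal.ord_aleph0]
      exact Cardinal.ord_le_ord.2 h.unc.le
    exact Ordinal.one_lt_omega0.trans_le this
  have h0 : (0 : Ordinal.{u}) < L.ord := zero_lt_one.trans h1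
  obtain ⟨x, hx, hd⟩ := hCOD t h.ht L h.unc.le
    (fun c => {a | (∃ ξ, c = t 0 ξ ∧ a ∈ z ξ) ∨ ∃ i, c = t 1 i ∧ a ∈ y i})
  refine ⟨x, ⟨hx, fun m hm s => ?_⟩, fun i hi => ⟨hlt 1 h1 i hi, fun a ha => ?_⟩⟩
  · obtain ⟨ξ, hξ, hs⟩ := hz m hm s
    refine ⟨t 0 ξ, hlt 0 h0 ξ hξ, fun a ha => ?_⟩
    rw [hd _ (hlt 0 h0 ξ hξ) a (ha.trans hm), ← hs a ha]
    constructor
    · rintro (⟨ξ', he, h'⟩ | ⟨i, he, _⟩)
      · rw [(hinj _ _ _ _ he).2]
        exact h'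
      · exact absurd (hinj _ _ _ _ he).1 zero_ne_one
    · exact fun h' => Or.inl ⟨ξ, rfl, h'⟩
  · rw [hd _ (hlt 1 h1 i hi) a ha]
    constructor
    · rintro (⟨ξ', he, _⟩ | ⟨i', he, h'⟩)
      · exact absurd (hinj _ _ _ _ he).1.symm zero_ne_one
      · rw [(hinj _ _ _ _ he).2]
        exact h'
    · exact fun h' => Or.inr ⟨i, rfl, h'⟩

/-- Decoded sets are definable from the code. -/
theorem odp_dec (hDXD : T_DXD.{u}) (hODY : T_ODY.{u}) {t : Ordinal.{u} → Ordinal.{u} → Ordinal.{u}}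
    (ht : PF t) (x : ZFSet.{u}) (κ c : Ordinal.{u}) : NF.ODp x (os κ (dec t x c)) :=
  hODY _ (hDXD t ht) x κ (fun _ => c)

/-- A set of ordinals from the set of its elements. -/
theorem eq_os {κ : Ordinal.{u}} {y : ZFSet.{u}} (hy : y ⊆ κ.toZFSet) {X : Set Ordinal.{u}}
    (h : ∀ a < κ, (a ∈ X ↔ a.toZFSet ∈ y)) : y = os κ X := by
  ext z
  rw [mem_os]
  constructor
  · intro hz
    obtain ⟨a, ha, rfl⟩ := mem_toZFSet_iff.1 (hy hz)
    exact ⟨a, ha, (h a ha).2 hz, rfl⟩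
  · rintro ⟨a, ha, h1, rfl⟩
    exact (h a ha).1 h1

theorem pf_CDX (hCOD : T_COD.{u}) (hCDB : T_CDB.{u}) (hDXD : T_DXD.{u}) (hODY : T_ODY.{u}) :
    T_CDX.{u} := by
  intro en t L h y hy
  obtain ⟨x, hx, hd⟩ := core hCOD hCDB h (fun i => {a | a.toZFSet ∈ y i})
  refine ⟨x, hx, fun i hi => ?_⟩
  rw [eq_os (hy i hi) (X := dec t x (t 1 i)) fun a ha => (hd i hi).2 a ha]
  exact odp_dec hDXD hODY h.ht x _ _

/-- a cofinal sequence -/
theorem cof_seq {θ : Ordinal.{u}} (hθ : θ.cof = ℵ₀) :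
    ∃ t : ℕ → Ordinal.{u}, (∀ n, t n < θ) ∧ ∀ ξ < θ, ∃ n, ξ < t n := by
  have hlim : IsSuccLimit θ := Ordinal.one_lt_cof_iff.1 (by
    rw [hθ]; exact Cardinal.one_lt_aleph0)
  obtain ⟨B, hB, hBl, e, he⟩ := All.vg θ hlim
  classical
  refine ⟨fun n => if e n ∈ B then e n else 0, fun n => ?_, fun ξ hξ => ?_⟩
  · by_cases h : e n ∈ B
    · simp only [h, if_true]
      exact hBl _ h
    · simp only [h, if_false]
      exact hlim.bot_lt
  · obtain ⟨b, hb, h1, h2⟩ := hB.unb ξ hξ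
    obtain ⟨a, ha, h3⟩ := he b h2
    rw [hθ, Cardinal.ord_aleph0] at ha
    obtain ⟨n, rfl⟩ := Ordinal.lt_omega0.1 ha
    refine ⟨n, ?_⟩
    have h4 : e n ∈ B := by rw [h3]; exact h2
    simp only [h4, if_true]
    rw [h3]
    exact h1

theorem pf_CDC (hCOD : T_COD.{u}) (hCDB : T_CDB.{u}) (hDXD : T_DXD.{u}) (hODY : T_ODY.{u}) :
    T_CDC.{u} := by
  classical
  intro en t L h hL y hy
  obtain ⟨s, hs, hs'⟩ := cof_seq hL
  have h1 : (1 : Ordinal.{u}) < L.ord := by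
    have : ω ≤ L.ord := by
      rw [← Cardinal.ord_aleph0]
      exact Cardinal.ord_le_ord.2 h.unc.le
    exact Ordinal.one_lt_omega0.trans_le this
  have h0 : (0 : Ordinal.{u}) < L.ord := zero_lt_one.trans h1
  obtain ⟨x, hx, hd⟩ := core hCOD hCDB h
    (fun i => if i = 0 then {a | a.toZFSet ∈ y} else {a | ∃ n, a = s n})
  have hd0 : ∀ a < L.ord, (a ∈ dec t x (t 1 0) ↔ a.toZFSet ∈ y) := fun a ha => by
    rw [(hd 0 h0).2 a ha, if_pos rfl]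
    rfl
  have hd1 : ∀ a < L.ord, (a ∈ dec t x (t 1 1) ↔ ∃ n, a = s n) := fun a ha => by
    rw [(hd 1 h1).2 a ha, if_neg one_ne_zero]
    rfl
  refine ⟨x, hx, ⟨fun x w => w 0 ∈ dec t x (w 1) ∧ w 0 < w 2, (hDXD t h.ht).and
    (DX.o (DO.lt 0 2)), cns (t 1 1) (fun _ => L.ord), fun a ha => ha.2, fun m hm => ?_,
    fun c => if hc : ∃ n : ℕ, c = n then s hc.choose else 0, fun a ha => ?_⟩, ?_⟩
  · obtain ⟨n, hn⟩ := hs' m hm
    exact ⟨s n, ⟨(hd1 _ (hs n)).2 ⟨n, rfl⟩, hs n⟩, hn⟩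
  · obtain ⟨n, rfl⟩ := (hd1 a ha.2).1 ha.1
    have hn : ∃ k : ℕ, (n : Ordinal.{u}) = k := ⟨n, rfl⟩
    refine ⟨n, ?_, ?_⟩
    · rw [_root_.HD.NF.w0, Cardinal.ord_aleph0]
      exact Ordinal.natCast_lt_omega0 n
    · refine (dif_pos hn).trans ?_
      have : hn.choose = n := by
        have h2 := hn.choose_spec
        exact_mod_cast h2.symm
      rw [this]
  · rw [eq_os hy (X := dec t x (t 1 0)) hd0]
    exact odp_dec hDXD hODY h.ht x _ _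

end Pool.Agent.H99.SD
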