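import Pool.Agent.H97.SD.Targets

set_option autoImplicit false

open Finset Pool.Agent.H97.SD

namespace Pool.Agent.H99.SD

theorem card_even_cnt (hPAT : P_PAT) (N a b : ℕ) (hb : 1 ≤ b)
    [DecidablePred (fun z : BV N a b → Bool => EvenA z)] :
    (univ.filter (fun z : BV N a b → Bool => EvenA z)).card = 2 ^ ((b - 1) * a * N) := by
  classical
  set E : Finset (Fin b → Bool) :=
    univ.filter (fun π : Fin b → Bool => Even (univ.filter (fun i => π i = true)).card) with hE
  have h1 : (univ.filter (fun z : BV N a b → Bool => EvenA z)).card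
      = (Fintype.piFinset (fun _ : Fin N × Fin a => E)).card := by
    apply Finset.card_nbij' (fun z => fun p i => z (p.1, p.2, i))
      (fun w => fun v => w (v.1, v.2.1) v.2.2)
    · intro z hz
      simp only [Finset.coe_filter, Finset.mem_univ, true_and, Set.mem_ofPred_eq] at hz
      simp only [Finset.mem_coe, Fintype.mem_piFinset, hE, Finset.mem_filter, Finset.mem_univ,
        true_and]
      intro p
      exact hz p.1 p.2
    · intro w hw
      simp only [Finset.mem_coe, Fintype.mem_piFinset, hE, Finset.mem_filter, Finset.mem_univ,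
        true_and] at hw
      simp only [Finset.coe_filter, Finset.mem_univ, true_and, Set.mem_ofPred_eq]
      intro j g
      exact hw (j, g)
    · intro z _
      rfl
    · intro w _
      rfl
  rw [h1, Fintype.card_piFinset, Finset.prod_const, Finset.card_univ, Fintype.card_prod,
    Fintype.card_fin, Fintype.card_fin, hE, (hPAT b hb).1, ← pow_mul]
  congr 1
  ring

theorem par_flip_cnt {N a b : ℕ} (α α' : BV N a b → Bool) (j : Fin N) (g : Fin a) (i₀ : Fin b)
    (h : ∀ i, i ≠ i₀ → α (j, g, i) = α' (j, g, i)) (h1 : α (j, g, i₀) = true)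
    (h2 : α' (j, g, i₀) = false) : par α j g = par α' j g + 1 := by
  classical
  unfold par
  have : (univ.filter (fun i : Fin b => α (j, g, i) = true))
      = insert i₀ (univ.filter (fun i : Fin b => α' (j, g, i) = true)) := by
    ext i
    simp only [Finset.mem_filter, Finset.mem_univ, true_and, Finset.mem_insert]
    by_cases hi : i = i₀
    · subst hi
      simp [h1]
    · simp [hi, h i hi]
  rw [this, Finset.card_insert_of_notMem]
  simp [h2]

theorem agree_cnt {N a b : ℕ} (nx : Clause (BV N a b) → Bool → Clause (BV N a b))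
    (C : Clause (BV N a b)) (β : ℕ → Bool) (i : ℕ) (O : Finset (Fin N))
    (α α' : BV N a b → Bool) (hE : EvenA α) (hE' : EvenA α')
    (hC : Comp α nx C β i O) (hC' : Comp α' nx C β i O)
    (h : ∀ v : BV N a b, v.1 ∉ UB nx C β i \ O → α v = α' v) : α = α' := by
  funext v
  by_cases hv : v.1 ∈ UB nx C β i \ O
  swap
  · exact h v hv
  obtain ⟨j, g, i₀⟩ := v
  simp only [Finset.mem_sdiff] at hv
  obtain ⟨hv, hO⟩ := hv
  unfold UB at hv
  rw [Finset.mem_biUnion] at hv
  obtain ⟨s, hs, hj⟩ := hv
  have hs' : s ≤ i := by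
    have := Finset.mem_range.1 hs
    omega
  have key : ∀ u : Fin a × Fin b, (j, u) ∈ (pth nx C β s).image Prod.fst →
      α (j, u) = α' (j, u) := by
    intro u hu
    obtain ⟨l, hl, hl1⟩ := Finset.mem_image.1 hu
    have e1 := hC s hs' l hl (by rw [hl1]; exact hO)
    have e2 := hC' s hs' l hl (by rw [hl1]; exact hO)
    rw [hl1] at e1 e2
    cases h1 : α (j, u) <;> cases h2 : α' (j, u) <;> cases h3 : l.2 <;> simp_all
  by_contra hne
  have hmiss : (j, g, i₀) ∉ (pth nx C β s).image Prod.fst := fun h' => hne (key _ h')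
  have hcard := (Finset.mem_filter.1 hj).2
  have hoth : ∀ i', i' ≠ i₀ → α (j, g, i') = α' (j, g, i') := by
    intro i' hi'
    apply key
    by_contra hcon
    have := (Finset.card_le_one.1 hcard) (g, i₀) (by simpa using hmiss) (g, i')
      (by simpa using hcon)
    exact hi' (by simpa using (Prod.ext_iff.1 this).2.symm)
  have q1 := hE j g
  have q2 := hE' j g
  cases h1 : α (j, g, i₀) <;> cases h2 : α' (j, g, i₀)
  · exact hne (by rw [h1, h2])
  · have := par_flip_cnt α' α j g i₀ (fun i' hi' => (hoth i' hi').symm) h2 h1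
    rw [this] at q2
    exact (Nat.not_even_iff_odd.2 (Even.add_one q1)) q2
  · have := par_flip_cnt α α' j g i₀ hoth h1 h2
    rw [this] at q1
    exact (Nat.not_even_iff_odd.2 (Even.add_one q2)) q1
  · exact hne (by rw [h1, h2])

theorem pth_congr_cnt {V : Type} (nx : Clause V → Bool → Clause V) (C : Clause V)
    (β β' : ℕ → Bool) : ∀ s : ℕ, (∀ t, t < s → β t = β' t) → pth nx C β s = pth nx C β' s
  | 0, _ => rfl
  | s + 1, h => by
      show nx (pth nx C β s) (β s) = nx (pth nx C β' s) (β' s)
      rw [pth_congr_cnt nx C β β' s (fun t ht => h t (by omega)), h s (by omega)]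

theorem fibre_cnt {N a b : ℕ} (nx : Clause (BV N a b) → Bool → Clause (BV N a b))
    (C : Clause (BV N a b)) (β : ℕ → Bool) (i : ℕ) (O : Finset (Fin N)) (f g : ℕ)
    (hO : O.card ≤ f) (hU : N ≤ (UB nx C β i ∪ O).card + g)
    (S : Finset (BV N a b → Bool)) (hS : ∀ α ∈ S, EvenA α ∧ Comp α nx C β i O) :
    S.card ≤ 2 ^ (a * b * (g + f)) := by
  classical
  set U := UB nx C β i \ O with hUdef
  have h1 : S.card ≤ (univ : Finset ({v : BV N a b // v.1 ∉ U} → Bool)).card := by
    apply Finset.card_le_card_of_injOn (fun α => fun v => α v.1)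
    · intro α _
      simp
    · intro α hα α' hα' hEq
      have s1 := hS α hα
      have s2 := hS α' hα'
      apply agree_cnt nx C β i O α α' s1.1 s2.1 s1.2 s2.2
      intro v hv
      exact congrFun hEq ⟨v, hv⟩
  refine h1.trans ?_
  rw [Finset.card_univ, Fintype.card_fun, Fintype.card_bool]
  apply Nat.pow_le_pow_right (by norm_num)
  rw [Fintype.card_subtype]
  have h2 : (univ.filter (fun v : BV N a b => v.1 ∉ U))
      = (univ.filter (fun j : Fin N => j ∉ U)) ×ˢ (univ : Finset (Fin a × Fin b)) := by
    ext v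
    simp
  rw [h2, Finset.card_product, Finset.card_univ, Fintype.card_prod, Fintype.card_fin,
    Fintype.card_fin]
  have h3 : (univ.filter (fun j : Fin N => j ∉ U)).card = N - U.card := by
    have : (univ.filter (fun j : Fin N => j ∉ U)) = Uᶜ := by
      ext j
      simp
    rw [this, Finset.card_compl, Fintype.card_fin]
  rw [h3]
  have h4 : (UB nx C β i ∪ O).card ≤ U.card + O.card := by
    have : UB nx C β i ∪ O = U ∪ O := by
      rw [hUdef]
      ext j
      simp only [Finset.mem_union, Finset.mem_sdiff]
      tauto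
    rw [this]
    exact Finset.card_union_le _ _
  have h5 : N - U.card ≤ g + f := by omega
  calc (N - U.card) * (a * b) ≤ (g + f) * (a * b) := Nat.mul_le_mul_right _ h5
    _ = a * b * (g + f) := by ring

theorem pf_CNT (hPAT : P_PAT) : P_CNT := by
  classical
  intro N a b L f g P nx hb hmain
  choose! C hCP β i O hiL hOf hComp hUB using hmain
  set E := univ.filter (fun z : BV N a b → Bool => EvenA z) with hE
  rw [← card_even_cnt hPAT N a b hb, ← hE]
  let ext : (Fin L → Bool) → ℕ → Bool := fun β' n => if h : n < L then β' ⟨n, h⟩ else false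
  let code : (BV N a b → Bool) → Clause (BV N a b) × (Fin L → Bool) × Fin (L + 1) ×
      Finset (Fin N) := fun α => (C α, fun n => β α n.1, ⟨min (i α) L, by omega⟩, O α)
  have hbound := Finset.card_le_mul_card_image_of_maps_to (f := code) (s := E)
    (t := P ×ˢ ((univ : Finset (Fin L → Bool)) ×ˢ ((univ : Finset (Fin (L + 1))) ×ˢ
      (univ : Finset (Finset (Fin N)))))) ?_ (2 ^ (a * b * (g + f))) ?_
  · refine hbound.trans (le_of_eq ?_)
    rw [Finset.card_product, Finset.card_product, Finset.card_product, Finset.card_univ,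
      Finset.card_univ, Finset.card_univ, Fintype.card_fun, Fintype.card_bool, Fintype.card_fin,
      Fintype.card_fin, Fintype.card_finset, Fintype.card_fin]
    ring
  · intro α hα
    have hα' : EvenA α := (Finset.mem_filter.1 hα).2
    simp only [Finset.mem_product, Finset.mem_univ, and_true, code]
    exact hCP α hα'
  · intro c _
    by_cases hne : (E.filter (fun α => code α = c)).Nonempty
    swap
    · rw [Finset.not_nonempty_iff_eq_empty] at hne
      rw [hne]
      simp
    obtain ⟨α₀, hα₀⟩ := hne
    obtain ⟨hα₀E, hα₀c⟩ := Finset.mem_filter.1 hα₀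
    have hall : ∀ α, α ∈ E → code α = c → EvenA α ∧ O α = c.2.2.2 ∧ c.2.2.2.card ≤ f ∧
        Comp α nx c.1 (ext c.2.1) c.2.2.1.1 c.2.2.2 ∧
        N ≤ (UB nx c.1 (ext c.2.1) c.2.2.1.1 ∪ c.2.2.2).card + g := by
      intro α hα hc
      have hα' : EvenA α := (Finset.mem_filter.1 hα).2
      have hi : min (i α) L = i α := min_eq_left (hiL α hα')
      have e1 : c.1 = C α := by rw [← hc]
      have e2 : c.2.1 = fun n => β α n.1 := by rw [← hc]
      have e3 : c.2.2.1.1 = i α := by rw [← hc]; exact hi
      have e4 : c.2.2.2 = O α := by rw [← hc]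
      have hpth : ∀ s, s ≤ i α → pth nx (C α) (ext (fun n => β α n.1)) s = pth nx (C α) (β α) s := by
        intro s hs
        apply pth_congr_cnt
        intro t ht
        have htL : t < L := lt_of_lt_of_le ht (hs.trans (hiL α hα'))
        simp only [ext, htL, dif_pos]
      rw [e1, e2, e3, e4]
      refine ⟨hα', rfl, hOf α hα', ?_, ?_⟩
      · intro s hs l hl
        rw [hpth s hs] at hl
        exact hComp α hα' s hs l hl
      · have : UB nx (C α) (ext (fun n => β α n.1)) (i α) = UB nx (C α) (β α) (i α) := by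
          unfold UB
          apply Finset.biUnion_congr rfl
          intro s hs
          rw [hpth s (by have := Finset.mem_range.1 hs; omega)]
        rw [this]
        exact hUB α hα'
    have h0 := hall α₀ hα₀E hα₀c
    apply fibre_cnt nx c.1 (ext c.2.1) c.2.2.1.1 c.2.2.2 f g h0.2.2.1 h0.2.2.2.2
    intro α hα
    obtain ⟨hαE, hαc⟩ := Finset.mem_filter.1 hα
    have := hall α hαE hαc
    exact ⟨this.1, this.2.2.2.1⟩

end Pool.Agent.H99.SD
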