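import Pool.Agent.H98.SD.NuJ

/-!
# MP_e37c09_lc: small sets of ordinals as parameters, the equivalence
-/

open Ordinal Cardinal Order Set
open scoped ZFSet
open HD HD.SD

universe u

namespace HD.SD

open HD.HV (NMeas)

/-- SSX. For `n < δ`: some regular `K > δ` has no normal measure in HOD_x for one set `x` of at
most `n` ordinals if and only if for each `G` some set of at most `n` ordinals has the covering
property at `G`. -/
def T_SSX : Prop := ∀ δ : Cardinal.{u}, Extendible δ.ord → ∀ n < δ,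
  ((∃ x, SmO n x ∧ ¬ ∀ K : Cardinal.{u}, K.IsRegular → δ < K →
      ∃ U, NMeas (NC fun y => y = x) K.ord U) ↔
    ∀ G : Cardinal.{u}, ∃ x, SmO n x ∧ CvN δ δ G x)

end HD.SD

namespace Pool.Agent.H99.SD.SSX

open HD.HV (NMeas)

/-- a cardinal of countable cofinality -/
theorem exists_cof (δ : Cardinal.{u}) : ∃ G : Cardinal.{u}, δ ≤ G ∧ G.ord.cof = ℵ₀ := by
  have hl : IsSuccLimit (δ.ord + ω) := isSuccLimit_add _ isSuccLimit_omega0
  refine ⟨ℵ_ (δ.ord + ω), ?_, ?_⟩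
  · have h1 : δ.ord ≤ (ℵ_ (δ.ord + ω)).ord := by
      rw [ord_aleph]
      exact (le_add_right (le_refl δ.ord)).trans (le_omega_self _)
    exact Cardinal.ord_le_ord.1 h1
  · rw [ord_aleph, cof_omega hl, cof_add _ omega0_ne_zero, cof_omega0]

theorem ssx (hEMB : T_EMB.{u}) (hCLA : T_CLA.{u}) (hKON : T_KON.{u})
    (hDXS : T_DXS.{u}) (hFWM : T_FWM.{u}) (hDXP : T_DXP.{u}) (hODY : T_ODY.{u}) :
    T_SSX.{u} := by
  intro δ hδ n hn
  obtain ⟨δ', hδ', hDr, hDl, hω⟩ : ∃ D' : Cardinal.{u}, δ.ord = D'.ord ∧ D'.IsRegular ∧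
      D'.IsStrongLimit ∧ ℵ₀ < D' := by
    obtain ⟨η, -, θ, j, hE⟩ := All.xa δ.ord hδ 0
    exact All.xb δ.ord η θ j hE
  obtain rfl := Cardinal.ord_injective hδ'
  obtain ⟨en, hen⟩ := All.en.{u}
  have h0 := Cardinal.isRegular_aleph0.{u}
  constructor
  · rintro ⟨y, hy, hK⟩ G
    push Not at hK
    obtain ⟨K, hKr, hδK, hU⟩ := hK
    have hs : SplM en (ℵ₀ : Cardinal.{u}).ord K.ord y δ.ord := by
      by_contra hs
      have hm := hCLA en hen δ hω (fun c hc => hDl.two_power_lt hc) K hKr hδK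
        (ℵ₀ : Cardinal.{u}).ord (fun z => z = y) (pcl_eq δ y) (by
          rintro x rfl
          exact hs)
      obtain ⟨U, h⟩ := nmeas_of_msrK h0 hω hKr hδK hm
      exact hU U h
    obtain ⟨K', hK', hlt, y', hy', hs'⟩ := hEMB en hen δ hδ ℵ₀ h0 hω K hKr hδK n hn y hy hs
      (max δ G)
    have hR := rflN_ext hδ hK' ((le_max_left δ G).trans_lt hlt) h0 hω
    obtain ⟨c, h1, h2⟩ := hs'.mono (Cardinal.ord_le_ord.2 (le_max_right δ G))
    have hP : DX.{u} fun x w => w 0 ∈ Sc2 en x (w 2) (w 1) :=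
      (hDXS en hen).2.ren fun n => if n = 0 then 0 else if n = 1 then 2 else 1
    exact ⟨y', hy', cvn_of hFWM hDXP hODY hR hP (ξ := c) h1 h2⟩
  · intro h
    obtain ⟨G, hG, hc⟩ := exists_cof δ
    obtain ⟨x, hx, hC⟩ := h G
    refine ⟨x, hx, fun hall => ?_⟩
    have hGω : ℵ₀ < G := hω.trans_le hG
    obtain ⟨F, hF, hFf, hFi⟩ := hKON δ δ G hGω hG (by rw [hc]; exact hω) x hC
    obtain ⟨U, hU⟩ := hall (succ G) (Cardinal.isRegular_succ hGω.le) (hG.trans_lt (lt_succ G))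
    refine Pool.Agent.H54.SD.nmf (Cardinal.ord_lt_ord.2 (lt_succ G)) (A := fun y => y = x) rfl
      (fun y hy => ?_) hF hFf hFi ⟨U, cm_of_nmeas hU⟩
    have hy' : y = x := hy
    rw [hy']
    exact Pool.Agent.H45.NF.ODp.of_dz (Q := fun v => v 0 = v 1) (DZ.eq 0 1) fun _ => Iff.rfl

end Pool.Agent.H99.SD.SSX
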