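import Pool.Agent.H97.SD.Targets

set_option autoImplicit false

open Finset Pool.Agent.H97.SD

namespace Pool.Agent.H99.SD

theorem pf_FLP : P_FLP := by
  classical
  intro N a b C C' l α x O Z hC' hF hO hZO hZC
  have hex : ∀ j ∈ Z, ∃ u : Fin a × Fin b, (j, u) ∉ C.image Prod.fst ∧ u ≠ l.1.2 := by
    intro j hj
    have hj' : j ∉ Hp C := Finset.disjoint_left.1 hZC hj
    have hcard : 1 < (univ.filter (fun u : Fin a × Fin b => (j, u) ∉ C.image Prod.fst)).card := by
      by_contra hcon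
      exact hj' (Finset.mem_filter.2 ⟨Finset.mem_univ _, not_lt.1 hcon⟩)
    obtain ⟨u, hu, hne⟩ := Finset.exists_mem_ne hcard l.1.2
    exact ⟨u, (Finset.mem_filter.1 hu).2, hne⟩
  haveI : Nonempty (Fin a × Fin b) := ⟨l.1.2⟩
  choose! U hU1 hU2 using hex
  refine ⟨fun v => if v.1 ∈ Z ∧ v.2 = U v.1 then !(x v) else x v, ⟨?_, ?_⟩, ?_⟩
  · intro v hv
    have h1 : v.1 ∉ O := fun h => hv (Finset.mem_union_left _ h)
    have h2 : v.1 ∉ Z := fun h => hv (Finset.mem_union_right _ h)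
    have h3 : ¬ (v.1 ∈ Z ∧ v.2 = U v.1) := fun h => h2 h.1
    show (if v.1 ∈ Z ∧ v.2 = U v.1 then !(x v) else x v) = α v
    rw [if_neg h3]
    exact hO.1 v h1
  · intro j hj
    by_cases hjZ : j ∈ Z
    · have hjO : j ∉ O := Finset.disjoint_left.1 hZO hjZ
      refine ⟨U j, ?_, ?_⟩
      · show (if j ∈ Z ∧ U j = U j then !(x (j, U j)) else x (j, U j)) ≠ α (j, U j)
        rw [if_pos ⟨hjZ, rfl⟩, hO.1 (j, U j) hjO]
        cases α (j, U j) <;> simp
      · intro u' hu'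
        show (if j ∈ Z ∧ u' = U j then !(x (j, u')) else x (j, u')) = α (j, u')
        rw [if_neg (fun h => hu' h.2)]
        exact hO.1 (j, u') hjO
    · have hjO : j ∈ O := (Finset.mem_union.1 hj).resolve_right hjZ
      obtain ⟨u, hu1, hu2⟩ := hO.2 j hjO
      refine ⟨u, ?_, ?_⟩
      · show (if j ∈ Z ∧ u = U j then !(x (j, u)) else x (j, u)) ≠ α (j, u)
        rw [if_neg (fun h => hjZ h.1)]
        exact hu1
      · intro u' hu'
        show (if j ∈ Z ∧ u' = U j then !(x (j, u')) else x (j, u')) = α (j, u')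
        rw [if_neg (fun h => hjZ h.1)]
        exact hu2 u' hu'
  · intro l' hl'
    have hnot : ¬ (l'.1.1 ∈ Z ∧ l'.1.2 = U l'.1.1) := by
      rintro ⟨h1, h2⟩
      rcases Finset.mem_insert.1 (hC' hl') with h3 | h3
      · rw [h3] at h1 h2
        exact hU2 _ h1 h2.symm
      · apply hU1 _ h1
        rw [← h2]
        exact Finset.mem_image.2 ⟨l', h3, rfl⟩
    show (if l'.1.1 ∈ Z ∧ l'.1.2 = U l'.1.1 then !(x l'.1) else x l'.1) ≠ l'.2
    rw [if_neg hnot]
    exact hF l' hl'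

end Pool.Agent.H99.SD
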